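import Mathlib

/-!
# Failure of the conformal Levy-Gromov inequality for Liouville supersolutions (MP_c070b6_an)

For `κ ∈ (0, 1/10]` put `q = √(|z² - 1|² + κ⁴)` and
`u = log (2 κ) - (1/2) log q - log (q + κ² |z|²)`.
Then `u` is a smooth supersolution of the Liouville equation with finite area, the length of the
imaginary axis is at most `2 π κ`, and both half planes have area at least `4 π / 75`.
-/

namespace Pool.Agent.Results.MP_c070b6_an.NoConformalLevyGromov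

open MeasureTheory Complex Filter Topology Laplacian InnerProductSpace
open scoped ENNReal ContDiff

/-- The area `A(E) = ∫_E e^{2u} dx` of a set `E` for the metric `e^{2u} |dz|²`. -/
noncomputable def area (u : ℂ → ℝ) (E : Set ℂ) : ℝ≥0∞ :=
  ∫⁻ z in E, ENNReal.ofReal (Real.exp (2 * u z))

/-- The length `L(Ω) = ∫_{∂Ω} e^u ds` of the boundary of `Ω`, with `ds` the one-dimensional
Hausdorff measure (Euclidean arc length). -/
noncomputable def boundaryLength (u : ℂ → ℝ) (Ω : Set ℂ) : ℝ≥0∞ :=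
  ∫⁻ z in frontier Ω, ENNReal.ofReal (Real.exp (u z)) ∂(Measure.hausdorffMeasure 1)

/-- A smooth domain: a nonempty connected open set which near each of its boundary points is a
sublevel set `{φ < 0}` of a smooth function with non-zero differential at that point. -/
structure IsSmoothDomain (Ω : Set ℂ) : Prop where
  isOpen : IsOpen Ω
  isConnected : IsConnected Ω
  smooth : ∀ p ∈ frontier Ω, ∃ φ : ℂ → ℝ, ContDiff ℝ ∞ φ ∧ fderiv ℝ φ p ≠ 0 ∧
    ∀ᶠ z in 𝓝 p, (z ∈ Ω ↔ φ z < 0)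

/-- `P = |z² - 1|² + κ⁴` in real coordinates. -/
noncomputable def P (κ x y : ℝ) : ℝ := (x ^ 2 - y ^ 2 - 1) ^ 2 + 4 * x ^ 2 * y ^ 2 + κ ^ 4

/-- The supersolution in real coordinates. -/
noncomputable def U (κ x y : ℝ) : ℝ :=
  Real.log (2 * κ) - 1 / 4 * Real.log (P κ x y) -
    Real.log (√(P κ x y) + κ ^ 2 * (x ^ 2 + y ^ 2))

/-- The supersolution on `ℂ`. -/
noncomputable def u (κ : ℝ) (z : ℂ) : ℝ := U κ z.re z.im

lemma P_pos {κ : ℝ} (hκ : 0 < κ) (x y : ℝ) : 0 < P κ x y := by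
  unfold P; positivity

lemma G_pos {κ : ℝ} (hκ : 0 < κ) (x y : ℝ) : 0 < √(P κ x y) + κ ^ 2 * (x ^ 2 + y ^ 2) := by
  have := Real.sqrt_pos.mpr (P_pos hκ x y)
  positivity

lemma contDiff_u {κ : ℝ} (hκ : 0 < κ) {n : WithTop ℕ∞} : ContDiff ℝ n (u κ) := by
  have hre : ContDiff ℝ n (fun z : ℂ => z.re) := reCLM.contDiff
  have him : ContDiff ℝ n (fun z : ℂ => z.im) := imCLM.contDiff
  have hP : ContDiff ℝ n (fun z : ℂ => P κ z.re z.im) := by
    unfold P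
    fun_prop
  have hq : ContDiff ℝ n (fun z : ℂ => √(P κ z.re z.im)) :=
    hP.sqrt (fun z => (P_pos hκ _ _).ne')
  unfold u U
  refine ContDiff.sub (ContDiff.sub contDiff_const ?_) ?_
  · exact contDiff_const.mul (hP.log (fun z => (P_pos hκ _ _).ne'))
  · refine ContDiff.log ?_ (fun z => (G_pos hκ _ _).ne')
    exact hq.add (contDiff_const.mul ((hre.pow 2).add (him.pow 2)))

/-- First derivative of `-(1/4) log P - log (√P + R)` along a line. -/
lemma deriv_one {p r : ℝ → ℝ} {p1 r1 t : ℝ} (hp : HasDerivAt p p1 t) (hr : HasDerivAt r r1 t)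
    (hp0 : 0 < p t) (hr0 : 0 ≤ r t) (c : ℝ) :
    HasDerivAt (fun s => c - 1 / 4 * Real.log (p s) - Real.log (√(p s) + r s))
      (-(p1 / (4 * p t)) - (p1 / (2 * √(p t)) + r1) / (√(p t) + r t)) t := by
  have hq0 : 0 < √(p t) := Real.sqrt_pos.mpr hp0
  have h1 := (hp.log hp0.ne').const_mul (1 / 4)
  have h2 : HasDerivAt (fun s => √(p s) + r s) (p1 / (2 * √(p t)) + r1) t :=
    (hp.sqrt hp0.ne').add hr
  have h3 := h2.log (by positivity)
  have h5 : HasDerivAt (fun s => c - 1 / 4 * Real.log (p s) - Real.log (√(p s) + r s))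
      (0 - 1 / 4 * (p1 / p t) - (p1 / (2 * √(p t)) + r1) / (√(p t) + r t)) t :=
    ((hasDerivAt_const t c).sub h1).sub h3
  refine h5.congr_deriv ?_
  rw [zero_sub]
  congr 2
  field_simp

/-- Second derivative of `-(1/4) log P - log (√P + R)` along a line. -/
lemma deriv_two {p p1 r r1 : ℝ → ℝ} {p2 r2 t : ℝ} (hp : HasDerivAt p (p1 t) t)
    (hp1 : HasDerivAt p1 p2 t)
    (hr : HasDerivAt r (r1 t) t) (hr1 : HasDerivAt r1 r2 t)
    (hp0 : 0 < p t) (hr0 : 0 ≤ r t) :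
    HasDerivAt (fun s => -(p1 s / (4 * p s)) - (p1 s / (2 * √(p s)) + r1 s) / (√(p s) + r s))
      (-((p2 * p t - p1 t ^ 2) / (4 * p t ^ 2)) -
        (p2 / (2 * √(p t)) - p1 t ^ 2 / (4 * √(p t) ^ 3) + r2) / (√(p t) + r t) +
        (p1 t / (2 * √(p t)) + r1 t) ^ 2 / (√(p t) + r t) ^ 2) t := by
  have hq0 : 0 < √(p t) := Real.sqrt_pos.mpr hp0
  have hqq : √(p t) ^ 2 = p t := Real.sq_sqrt hp0.le
  have h1 : HasDerivAt (fun s => p1 s / (4 * p s))
      ((p2 * (4 * p t) - p1 t * (4 * p1 t)) / (4 * p t) ^ 2) t :=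
    hp1.div (hp.const_mul 4) (by positivity)
  have hsq : HasDerivAt (fun s => √(p s)) (p1 t / (2 * √(p t))) t := hp.sqrt hp0.ne'
  have h2 : HasDerivAt (fun s => p1 s / (2 * √(p s)))
      ((p2 * (2 * √(p t)) - p1 t * (2 * (p1 t / (2 * √(p t))))) / (2 * √(p t)) ^ 2) t :=
    hp1.div (hsq.const_mul 2) (by positivity)
  have h3 : HasDerivAt (fun s => √(p s) + r s) (p1 t / (2 * √(p t)) + r1 t) t := hsq.add hr
  have h4 : HasDerivAt (fun s => (p1 s / (2 * √(p s)) + r1 s) / (√(p s) + r s))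
      ((((p2 * (2 * √(p t)) - p1 t * (2 * (p1 t / (2 * √(p t))))) / (2 * √(p t)) ^ 2 + r2) *
        (√(p t) + r t) - (p1 t / (2 * √(p t)) + r1 t) * (p1 t / (2 * √(p t)) + r1 t)) /
        (√(p t) + r t) ^ 2) t :=
    (h2.add hr1).div h3 (by positivity : √(p t) + r t ≠ 0)
  have h5 : HasDerivAt (fun s => -(p1 s / (4 * p s)) - (p1 s / (2 * √(p s)) + r1 s) /
      (√(p s) + r s))
      (-((p2 * (4 * p t) - p1 t * (4 * p1 t)) / (4 * p t) ^ 2) -
      ((((p2 * (2 * √(p t)) - p1 t * (2 * (p1 t / (2 * √(p t))))) / (2 * √(p t)) ^ 2 + r2) *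
        (√(p t) + r t) - (p1 t / (2 * √(p t)) + r1 t) * (p1 t / (2 * √(p t)) + r1 t)) /
        (√(p t) + r t) ^ 2)) t := h1.neg.sub h4
  refine h5.congr_deriv ?_
  have hG : √(p t) + r t ≠ 0 := by positivity
  have e1 : (p2 * (4 * p t) - p1 t * (4 * p1 t)) / (4 * p t) ^ 2 =
      (p2 * p t - p1 t ^ 2) / (4 * p t ^ 2) := by
    field_simp
    try ring
  rw [e1]
  have e2 : ((p2 * (2 * √(p t)) - p1 t * (2 * (p1 t / (2 * √(p t))))) / (2 * √(p t)) ^ 2) =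
      p2 / (2 * √(p t)) - p1 t ^ 2 / (4 * √(p t) ^ 3) := by
    field_simp
    try ring
  rw [e2]
  field_simp
  ring

/-- Second directional derivatives from one-variable derivatives. -/
lemma iteratedFDeriv_two_of_hasDerivAt {f : ℂ → ℝ} (hf : ContDiff ℝ 2 f) (z v : ℂ) {g : ℝ → ℝ}
    {g' : ℝ} (h1 : ∀ t : ℝ, HasDerivAt (fun s : ℝ => f (z + s • v)) (g t) t)
    (h2 : HasDerivAt g g' 0) : iteratedFDeriv ℝ 2 f z ![v, v] = g' := by
  rw [iteratedFDeriv_two_apply]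
  simp only [Matrix.cons_val_zero, Matrix.cons_val_one]
  have hline : ∀ t : ℝ, HasDerivAt (fun s : ℝ => z + s • v) v t := by
    intro t
    have : HasDerivAt (fun s : ℝ => s • v) ((1 : ℝ) • v) t := (hasDerivAt_id t).smul_const v
    rw [one_smul] at this
    exact this.const_add z
  have hg : g = fun t : ℝ => fderiv ℝ f (z + t • v) v := by
    funext t
    have hd : HasFDerivAt f (fderiv ℝ f (z + t • v)) (z + t • v) :=
      (hf.differentiable (by norm_num) _).hasFDerivAt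
    exact (h1 t).unique (hd.comp_hasDerivAt t (hline t))
  have hf1 : ContDiff ℝ 1 (fderiv ℝ f) := hf.fderiv_right (by norm_num)
  have hd2 : HasFDerivAt (fderiv ℝ f) (fderiv ℝ (fderiv ℝ f) z) (z + (0 : ℝ) • v) := by
    rw [zero_smul, add_zero]
    exact (hf1.differentiable (by norm_num) _).hasFDerivAt
  have h3 : HasDerivAt (fun t : ℝ => fderiv ℝ f (z + t • v)) (fderiv ℝ (fderiv ℝ f) z v) 0 :=
    hd2.comp_hasDerivAt (0 : ℝ) (hline 0)
  have h4 : HasDerivAt (fun t : ℝ => fderiv ℝ f (z + t • v) v)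
      (fderiv ℝ (fderiv ℝ f) z v v) 0 := by
    have := h3.clm_apply (hasDerivAt_const (0 : ℝ) v)
    simpa using this
  rw [hg] at h2
  exact h4.unique h2

/-- The second derivative of `U` in terms of first and second derivatives of `P` and `R`. -/
noncomputable def D2 (κ x y p1 p2 r1 r2 : ℝ) : ℝ :=
  (-((p2 * P κ x y - p1 ^ 2) / (4 * P κ x y ^ 2)) -
        (p2 / (2 * √(P κ x y)) - p1 ^ 2 / (4 * √(P κ x y) ^ 3) + r2) /
          (√(P κ x y) + κ ^ 2 * (x ^ 2 + y ^ 2)) +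
        (p1 / (2 * √(P κ x y)) + r1) ^ 2 / (√(P κ x y) + κ ^ 2 * (x ^ 2 + y ^ 2)) ^ 2)

lemma second_x {κ : ℝ} (hκ : 0 < κ) (z : ℂ) : iteratedFDeriv ℝ 2 (u κ) z ![1, 1] =
    D2 κ z.re z.im (4 * z.re * (z.re ^ 2 + z.im ^ 2 - 1)) (12 * z.re ^ 2 + 4 * z.im ^ 2 - 4)
      (2 * κ ^ 2 * z.re) (2 * κ ^ 2) := by
  set x := z.re
  set y := z.im
  have hadd : ∀ t : ℝ, HasDerivAt (fun s : ℝ => x + s) 1 t := fun t =>
    (hasDerivAt_id t).const_add x
  have hp : ∀ t : ℝ, HasDerivAt (fun s : ℝ => P κ (x + s) y)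
      (4 * (x + t) * ((x + t) ^ 2 + y ^ 2 - 1)) t := by
    intro t
    unfold P
    have h1 : HasDerivAt (fun s : ℝ => (x + s) ^ 2) (2 * (x + t)) t := by
      refine ((hadd t).fun_pow 2).congr_deriv ?_
      norm_num
    have h2 := ((((h1.sub_const (y ^ 2)).sub_const 1).pow 2).add
      (((h1.const_mul 4).mul_const (y ^ 2)))).add_const (κ ^ 4)
    refine (h2.congr_deriv ?_)
    norm_num
    ring
  have hp1 : HasDerivAt (fun s : ℝ => 4 * (x + s) * ((x + s) ^ 2 + y ^ 2 - 1))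
      (12 * x ^ 2 + 4 * y ^ 2 - 4) 0 := by
    have h1 : HasDerivAt (fun s : ℝ => (x + s) ^ 2) (2 * (x + 0)) 0 := by
      refine ((hadd 0).fun_pow 2).congr_deriv ?_
      norm_num
    have h2 := ((hadd 0).const_mul 4).mul ((h1.add_const (y ^ 2)).sub_const 1)
    refine (h2.congr_deriv ?_)
    simp only [add_zero, mul_one]
    ring
  have hr : ∀ t : ℝ, HasDerivAt (fun s : ℝ => κ ^ 2 * ((x + s) ^ 2 + y ^ 2))
      (2 * κ ^ 2 * (x + t)) t := by
    intro t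
    have h1 : HasDerivAt (fun s : ℝ => (x + s) ^ 2) (2 * (x + t)) t := by
      refine ((hadd t).fun_pow 2).congr_deriv ?_
      norm_num
    have h2 := ((h1.add_const (y ^ 2)).const_mul (κ ^ 2))
    refine (h2.congr_deriv ?_)
    ring
  have hr1 : HasDerivAt (fun s : ℝ => 2 * κ ^ 2 * (x + s)) (2 * κ ^ 2) 0 := by
    have h2 := (hadd 0).const_mul (2 * κ ^ 2)
    refine (h2.congr_deriv ?_)
    ring
  have hre : ∀ s : ℝ, (z + s • (1 : ℂ)).re = x + s := by intro s; simp [x]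
  have him : ∀ s : ℝ, (z + s • (1 : ℂ)).im = y := by intro s; simp [y]
  have main := iteratedFDeriv_two_of_hasDerivAt (contDiff_u hκ) z 1
    (g := fun s => -((4 * (x + s) * ((x + s) ^ 2 + y ^ 2 - 1)) / (4 * P κ (x + s) y)) -
      ((4 * (x + s) * ((x + s) ^ 2 + y ^ 2 - 1)) / (2 * √(P κ (x + s) y)) +
        2 * κ ^ 2 * (x + s)) / (√(P κ (x + s) y) + κ ^ 2 * ((x + s) ^ 2 + y ^ 2)))
    (g' := D2 κ x y (4 * x * (x ^ 2 + y ^ 2 - 1)) (12 * x ^ 2 + 4 * y ^ 2 - 4)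
      (2 * κ ^ 2 * x) (2 * κ ^ 2)) ?_ ?_
  · exact main
  · intro t
    simp only [u, hre, him]
    exact deriv_one (hp t) (hr t) (P_pos hκ _ _) (by positivity) _
  · have h := deriv_two (p := fun s : ℝ => P κ (x + s) y)
      (p1 := fun s : ℝ => 4 * (x + s) * ((x + s) ^ 2 + y ^ 2 - 1))
      (r := fun s : ℝ => κ ^ 2 * ((x + s) ^ 2 + y ^ 2)) (r1 := fun s : ℝ => 2 * κ ^ 2 * (x + s))
      (hp 0) hp1 (hr 0) hr1 (P_pos hκ _ _) (by positivity)
    simp only [add_zero] at h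
    unfold D2
    exact h

lemma second_y {κ : ℝ} (hκ : 0 < κ) (z : ℂ) : iteratedFDeriv ℝ 2 (u κ) z ![I, I] =
    D2 κ z.re z.im (4 * z.im * (z.re ^ 2 + z.im ^ 2 + 1)) (4 * z.re ^ 2 + 12 * z.im ^ 2 + 4)
      (2 * κ ^ 2 * z.im) (2 * κ ^ 2) := by
  set x := z.re
  set y := z.im
  have hadd : ∀ t : ℝ, HasDerivAt (fun s : ℝ => y + s) 1 t := fun t =>
    (hasDerivAt_id t).const_add y
  have hp : ∀ t : ℝ, HasDerivAt (fun s : ℝ => P κ x (y + s))
      (4 * (y + t) * (x ^ 2 + (y + t) ^ 2 + 1)) t := by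
    intro t
    unfold P
    have h1 : HasDerivAt (fun s : ℝ => (y + s) ^ 2) (2 * (y + t)) t := by
      refine ((hadd t).fun_pow 2).congr_deriv ?_
      norm_num
    have h2 := ((((h1.const_sub (x ^ 2)).sub_const 1).pow 2).add
      (((h1.const_mul (4 * x ^ 2))))).add_const (κ ^ 4)
    refine (h2.congr_deriv ?_)
    norm_num
    ring
  have hp1 : HasDerivAt (fun s : ℝ => 4 * (y + s) * (x ^ 2 + (y + s) ^ 2 + 1))
      (4 * x ^ 2 + 12 * y ^ 2 + 4) 0 := by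
    have h1 : HasDerivAt (fun s : ℝ => (y + s) ^ 2) (2 * (y + 0)) 0 := by
      refine ((hadd 0).fun_pow 2).congr_deriv ?_
      norm_num
    have h2 := ((hadd 0).const_mul 4).mul ((h1.const_add (x ^ 2)).add_const 1)
    refine (h2.congr_deriv ?_)
    simp only [add_zero, mul_one]
    ring
  have hr : ∀ t : ℝ, HasDerivAt (fun s : ℝ => κ ^ 2 * (x ^ 2 + (y + s) ^ 2))
      (2 * κ ^ 2 * (y + t)) t := by
    intro t
    have h1 : HasDerivAt (fun s : ℝ => (y + s) ^ 2) (2 * (y + t)) t := by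
      refine ((hadd t).fun_pow 2).congr_deriv ?_
      norm_num
    have h2 := ((h1.const_add (x ^ 2)).const_mul (κ ^ 2))
    refine (h2.congr_deriv ?_)
    ring
  have hr1 : HasDerivAt (fun s : ℝ => 2 * κ ^ 2 * (y + s)) (2 * κ ^ 2) 0 := by
    have h2 := (hadd 0).const_mul (2 * κ ^ 2)
    refine (h2.congr_deriv ?_)
    ring
  have hre : ∀ s : ℝ, (z + s • I).re = x := by intro s; simp [x]
  have him : ∀ s : ℝ, (z + s • I).im = y + s := by intro s; simp [y]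
  have main := iteratedFDeriv_two_of_hasDerivAt (contDiff_u hκ) z I
    (g := fun s => -((4 * (y + s) * (x ^ 2 + (y + s) ^ 2 + 1)) / (4 * P κ x (y + s))) -
      ((4 * (y + s) * (x ^ 2 + (y + s) ^ 2 + 1)) / (2 * √(P κ x (y + s))) +
        2 * κ ^ 2 * (y + s)) / (√(P κ x (y + s)) + κ ^ 2 * (x ^ 2 + (y + s) ^ 2)))
    (g' := D2 κ x y (4 * y * (x ^ 2 + y ^ 2 + 1)) (4 * x ^ 2 + 12 * y ^ 2 + 4)
      (2 * κ ^ 2 * y) (2 * κ ^ 2)) ?_ ?_
  · exact main
  · intro t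
    simp only [u, hre, him]
    exact deriv_one (hp t) (hr t) (P_pos hκ _ _) (by positivity) _
  · have h := deriv_two (p := fun s : ℝ => P κ x (y + s))
      (p1 := fun s : ℝ => 4 * (y + s) * (x ^ 2 + (y + s) ^ 2 + 1))
      (r := fun s : ℝ => κ ^ 2 * (x ^ 2 + (y + s) ^ 2)) (r1 := fun s : ℝ => 2 * κ ^ 2 * (y + s))
      (hp 0) hp1 (hr 0) hr1 (P_pos hκ _ _) (by positivity)
    simp only [add_zero] at h
    unfold D2
    exact h

/-- Value of `e^{2u}`. -/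
lemma exp_two_u {κ : ℝ} (hκ : 0 < κ) (z : ℂ) : Real.exp (2 * u κ z) =
    4 * κ ^ 2 / (√(P κ z.re z.im) *
      (√(P κ z.re z.im) + κ ^ 2 * (z.re ^ 2 + z.im ^ 2)) ^ 2) := by
  have hP := P_pos hκ z.re z.im
  have hG := G_pos hκ z.re z.im
  have hq : 0 < √(P κ z.re z.im) := Real.sqrt_pos.mpr hP
  unfold u U
  have e1 : 2 * (Real.log (2 * κ) - 1 / 4 * Real.log (P κ z.re z.im) -
      Real.log (√(P κ z.re z.im) + κ ^ 2 * (z.re ^ 2 + z.im ^ 2))) =
      2 * Real.log (2 * κ) - Real.log (√(P κ z.re z.im)) -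
      2 * Real.log (√(P κ z.re z.im) + κ ^ 2 * (z.re ^ 2 + z.im ^ 2)) := by
    rw [Real.log_sqrt hP.le]; ring
  have e2 : ∀ a : ℝ, 0 < a → Real.exp (2 * Real.log a) = a ^ 2 := by
    intro a ha
    rw [two_mul, Real.exp_add, Real.exp_log ha, sq]
  rw [e1, Real.exp_sub, Real.exp_sub, Real.exp_log hq, e2 _ (by positivity), e2 _ hG]
  field_simp
  try ring

/-- The Liouville inequality. -/
lemma laplacian_u {κ : ℝ} (hκ : 0 < κ) (z : ℂ) :
    (Δ (u κ)) z + Real.exp (2 * u κ z) ≤ 0 := by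
  rw [laplacian_eq_iteratedFDeriv_complexPlane]
  simp only []
  rw [second_x hκ, second_y hκ, exp_two_u hκ]
  unfold D2
  set x := z.re
  set y := z.im
  have hP := P_pos hκ x y
  have hG := G_pos hκ x y
  have hq : 0 < √(P κ x y) := Real.sqrt_pos.mpr hP
  have hqP : P κ x y = √(P κ x y) ^ 2 := (Real.sq_sqrt hP.le).symm
  set q := √(P κ x y) with hqdef
  rw [hqP]
  set t := x ^ 2 + y ^ 2 with ht
  have hrel : q ^ 2 = t ^ 2 - 2 * (x ^ 2 - y ^ 2) + 1 + κ ^ 4 := by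
    rw [← hqP, ht]; unfold P; ring
  have hx : x ^ 2 = (t + (t ^ 2 + 1 + κ ^ 4 - q ^ 2) / 2) / 2 := by
    rw [hrel, ht]; ring
  have hy : y ^ 2 = (t - (t ^ 2 + 1 + κ ^ 4 - q ^ 2) / 2) / 2 := by
    rw [hrel, ht]; ring
  have ht0 : 0 ≤ t := by positivity
  have key : (-(((12 * x ^ 2 + 4 * y ^ 2 - 4) * q ^ 2 - (4 * x * (t - 1)) ^ 2) /
      (4 * (q ^ 2) ^ 2)) - ((12 * x ^ 2 + 4 * y ^ 2 - 4) / (2 * q) -
      (4 * x * (t - 1)) ^ 2 / (4 * q ^ 3) + 2 * κ ^ 2) / (q + κ ^ 2 * t) +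
      (4 * x * (t - 1) / (2 * q) + 2 * κ ^ 2 * x) ^ 2 / (q + κ ^ 2 * t) ^ 2) +
      (-(((4 * x ^ 2 + 12 * y ^ 2 + 4) * q ^ 2 - (4 * y * (t + 1)) ^ 2) /
      (4 * (q ^ 2) ^ 2)) - ((4 * x ^ 2 + 12 * y ^ 2 + 4) / (2 * q) -
      (4 * y * (t + 1)) ^ 2 / (4 * q ^ 3) + 2 * κ ^ 2) / (q + κ ^ 2 * t) +
      (4 * y * (t + 1) / (2 * q) + 2 * κ ^ 2 * y) ^ 2 / (q + κ ^ 2 * t) ^ 2) +
      4 * κ ^ 2 / (q * (q + κ ^ 2 * t) ^ 2) =
      -(4 * t * κ ^ 4 / q ^ 4 + (8 * κ ^ 4 * t / q ^ 2 +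
        4 * κ ^ 6 / q * (1 + t ^ 2 / q ^ 2)) / (q + κ ^ 2 * t) ^ 2) := by
    have hG' : q + κ ^ 2 * t ≠ 0 := hG.ne'
    have f1 : (4 * x * (t - 1)) ^ 2 = 16 * x ^ 2 * (t - 1) ^ 2 := by ring
    have f2 : (4 * y * (t + 1)) ^ 2 = 16 * y ^ 2 * (t + 1) ^ 2 := by ring
    have f3 : (4 * x * (t - 1) / (2 * q) + 2 * κ ^ 2 * x) ^ 2 =
      x ^ 2 * (2 * (t - 1) / q + 2 * κ ^ 2) ^ 2 := by
      field_simp
      try ring
    have f4 : (4 * y * (t + 1) / (2 * q) + 2 * κ ^ 2 * y) ^ 2 =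
      y ^ 2 * (2 * (t + 1) / q + 2 * κ ^ 2) ^ 2 := by
      field_simp
      try ring
    rw [f1, f2, f3, f4, hx, hy]
    field_simp
    ring
  rw [key]
  have : 0 ≤ 4 * t * κ ^ 4 / q ^ 4 + (8 * κ ^ 4 * t / q ^ 2 +
        4 * κ ^ 6 / q * (1 + t ^ 2 / q ^ 2)) / (q + κ ^ 2 * t) ^ 2 := by positivity
  linarith

lemma continuous_exp_two_u {κ : ℝ} (hκ : 0 < κ) :
    Continuous (fun z : ℂ => Real.exp (2 * u κ z)) :=
  Real.continuous_exp.comp (continuous_const.mul (contDiff_u hκ (n := 0)).continuous)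

lemma continuous_exp_u {κ : ℝ} (hκ : 0 < κ) :
    Continuous (fun z : ℂ => Real.exp (u κ z)) :=
  Real.continuous_exp.comp (contDiff_u hκ (n := 0)).continuous

/-- On the imaginary axis `e^u ≤ 2κ / (1 + y²)`. -/
lemma exp_u_imag {κ : ℝ} (hκ : 0 < κ) (y : ℝ) :
    Real.exp (u κ (y * I)) ≤ 2 * κ * (1 + y ^ 2)⁻¹ := by
  have h1 := exp_two_u hκ ((y : ℂ) * I)
  have hre : ((y : ℂ) * I).re = 0 := by simp
  have him : ((y : ℂ) * I).im = y := by simp
  rw [hre, him] at h1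
  have hP := P_pos hκ 0 y
  have hq : 1 + y ^ 2 ≤ √(P κ 0 y) := by
    apply Real.le_sqrt_of_sq_le
    unfold P
    nlinarith [pow_pos hκ 4]
  have hq1 : 1 ≤ √(P κ 0 y) := by nlinarith [sq_nonneg y]
  have hG : 1 + y ^ 2 ≤ √(P κ 0 y) + κ ^ 2 * (0 ^ 2 + y ^ 2) := by
    have : 0 ≤ κ ^ 2 * (0 ^ 2 + y ^ 2) := by positivity
    linarith
  have h2 : Real.exp (u κ (y * I)) ^ 2 ≤ (2 * κ * (1 + y ^ 2)⁻¹) ^ 2 := by
    rw [← Real.exp_nat_mul]
    have : ((2 : ℕ) : ℝ) * u κ (y * I) = 2 * u κ (y * I) := by norm_num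
    rw [this, h1]
    have e : (2 * κ * (1 + y ^ 2)⁻¹) ^ 2 = 4 * κ ^ 2 / (1 * (1 + y ^ 2) ^ 2) := by
      rw [mul_pow, inv_pow]; ring
    rw [e]
    gcongr
  exact le_of_sq_le_sq h2 (by positivity)

/-- The isometric parametrisation of the imaginary axis. -/
lemma isometry_imag : Isometry (fun y : ℝ => (y : ℂ) * I) := by
  apply Isometry.of_dist_eq
  intro x y
  rw [dist_eq_norm, dist_eq_norm, ← sub_mul, norm_mul, norm_I, mul_one, ← ofReal_sub, norm_real]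

lemma range_imag : Set.range (fun y : ℝ => (y : ℂ) * I) = {z : ℂ | z.re = 0} := by
  ext z
  constructor
  · rintro ⟨y, rfl⟩; simp
  · intro hz
    refine ⟨z.im, ?_⟩
    apply Complex.ext
    · simpa using hz.symm
    · simp

/-- The length of the imaginary axis is at most `2 π κ`. -/
lemma boundaryLength_le {κ : ℝ} (hκ : 0 < κ) :
    boundaryLength (u κ) {z : ℂ | 0 < z.re} ≤ ENNReal.ofReal (2 * κ * Real.pi) := by
  unfold boundaryLength
  rw [Complex.frontier_setOfPred_lt_re, ← range_imag,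
    ← isometry_imag.map_hausdorffMeasure (Or.inl zero_le_one), hausdorffMeasure_real,
    lintegral_map _ isometry_imag.continuous.measurable]
  · calc ∫⁻ y : ℝ, ENNReal.ofReal (Real.exp (u κ (y * I)))
        ≤ ∫⁻ y : ℝ, ENNReal.ofReal (2 * κ * (1 + y ^ 2)⁻¹) :=
          lintegral_mono fun y => ENNReal.ofReal_le_ofReal (exp_u_imag hκ y)
      _ = ENNReal.ofReal (∫ y : ℝ, 2 * κ * (1 + y ^ 2)⁻¹) := by
          rw [ofReal_integral_eq_lintegral_ofReal]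
          · exact integrable_inv_one_add_sq.const_mul _
          · exact Eventually.of_forall fun y => by positivity
      _ = ENNReal.ofReal (2 * κ * Real.pi) := by
          rw [integral_const_mul, integral_univ_inv_one_add_sq]
  · exact ENNReal.measurable_ofReal.comp (continuous_exp_u hκ).measurable

/-- Near `±1` the conformal factor is huge. -/
lemma exp_two_u_ge {κ : ℝ} (hκ : 0 < κ) (hκ1 : κ ≤ 1 / 10) {a : ℝ} (ha : a = 1 ∨ a = -1) {z : ℂ}
    (hz : z ∈ Metric.ball (a : ℂ) (κ ^ 2)) : 4 / (75 * κ ^ 4) ≤ Real.exp (2 * u κ z) := by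
  rw [exp_two_u hκ]
  set x := z.re with hx
  set y := z.im with hy
  have hκ2 : κ ^ 2 ≤ 1 / 100 := by nlinarith
  have hd : (x - a) ^ 2 + y ^ 2 < (κ ^ 2) ^ 2 := by
    rw [Metric.mem_ball, dist_eq_norm] at hz
    have h1 : ‖z - (a : ℂ)‖ ^ 2 < (κ ^ 2) ^ 2 := by
      apply pow_lt_pow_left₀ hz (norm_nonneg _) (by norm_num)
    rw [Complex.sq_norm, Complex.normSq_apply] at h1
    simp only [sub_re, ofReal_re, sub_im, ofReal_im, sub_zero] at h1
    nlinarith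
  have ha2 : a ^ 2 = 1 := by rcases ha with h | h <;> rw [h] <;> norm_num
  set b := x - a with hb
  have hxb : x = a + b := by rw [hb]; ring
  have hb2 : b ^ 2 ≤ (κ ^ 2) ^ 2 := by nlinarith [sq_nonneg y]
  have hy2 : y ^ 2 ≤ (κ ^ 2) ^ 2 := by nlinarith [sq_nonneg b]
  have habs : |b| ≤ κ ^ 2 := abs_le_of_sq_le_sq hb2 (by positivity)
  have hab : a * b ≤ κ ^ 2 := by
    rcases ha with h | h <;> rw [h] <;> have := abs_le.mp habs <;> linarith [this.1, this.2]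
  have hk4 : (κ ^ 2) ^ 2 ≤ 1 / 100 * κ ^ 2 := by nlinarith [sq_nonneg κ]
  have hn : x ^ 2 + y ^ 2 ≤ 2 := by
    rw [hxb]
    nlinarith
  have hP : P κ x y ≤ (3 * κ ^ 2) ^ 2 := by
    have e : P κ x y = ((x - a) ^ 2 + y ^ 2) * ((x + a) ^ 2 + y ^ 2) + κ ^ 4 := by
      unfold P
      have h3 : a ^ 4 = 1 := by
        have : a ^ 4 = (a ^ 2) ^ 2 := by ring
        rw [this, ha2]; norm_num
      have : ((x - a) ^ 2 + y ^ 2) * ((x + a) ^ 2 + y ^ 2) =
        (x ^ 2 - y ^ 2 - a ^ 2) ^ 2 + 4 * x ^ 2 * y ^ 2 := by ring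
      rw [this, ha2]
    rw [e]
    have h4 : (x + a) ^ 2 + y ^ 2 ≤ 8 := by
      have : (x + a) ^ 2 = 4 * a ^ 2 + 4 * (a * b) + b ^ 2 := by rw [hxb]; ring
      rw [this, ha2]
      nlinarith
    have h5 : ((x - a) ^ 2 + y ^ 2) * ((x + a) ^ 2 + y ^ 2) ≤ (κ ^ 2) ^ 2 * 8 := by
      apply mul_le_mul hd.le h4 (by positivity) (by positivity)
    nlinarith
  have hq0 : 0 < √(P κ x y) := Real.sqrt_pos.mpr (P_pos hκ x y)
  have hq : √(P κ x y) ≤ 3 * κ ^ 2 := by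
    rw [Real.sqrt_le_left (by positivity)]
    exact hP
  have hG : √(P κ x y) + κ ^ 2 * (x ^ 2 + y ^ 2) ≤ 5 * κ ^ 2 := by nlinarith [sq_nonneg κ]
  have e : 4 / (75 * κ ^ 4) = 4 * κ ^ 2 / ((3 * κ ^ 2) * (5 * κ ^ 2) ^ 2) := by
    field_simp
    norm_num
  rw [e]
  gcongr

lemma area_ge {κ : ℝ} (hκ : 0 < κ) (hκ1 : κ ≤ 1 / 10) {a : ℝ} (ha : a = 1 ∨ a = -1)
    {E : Set ℂ} (hE : Metric.ball (a : ℂ) (κ ^ 2) ⊆ E) :
    ENNReal.ofReal (4 * Real.pi / 75) ≤ area (u κ) E := by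
  unfold area
  calc ENNReal.ofReal (4 * Real.pi / 75)
      = ENNReal.ofReal (4 / (75 * κ ^ 4)) * volume (Metric.ball (a : ℂ) (κ ^ 2)) := by
        rw [Complex.volume_ball, ← ENNReal.ofReal_pow (by positivity),
          ← ENNReal.ofReal_coe_nnreal, ← ENNReal.ofReal_mul (by positivity),
          ← ENNReal.ofReal_mul (by positivity), NNReal.coe_real_pi]
        congr 1
        field_simp
    _ = ∫⁻ _ in Metric.ball (a : ℂ) (κ ^ 2), ENNReal.ofReal (4 / (75 * κ ^ 4)) := by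
        rw [setLIntegral_const]
    _ ≤ ∫⁻ z in Metric.ball (a : ℂ) (κ ^ 2), ENNReal.ofReal (Real.exp (2 * u κ z)) := by
        apply setLIntegral_mono'  Metric.isOpen_ball.measurableSet
        intro z hz
        exact ENNReal.ofReal_le_ofReal (exp_two_u_ge hκ hκ1 ha hz)
    _ ≤ ∫⁻ z in E, ENNReal.ofReal (Real.exp (2 * u κ z)) :=
        lintegral_mono_set hE

/-- The total area is finite. -/
lemma area_univ_lt_top {κ : ℝ} (hκ : 0 < κ) (hκ1 : κ ≤ 1 / 10) :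
    area (u κ) Set.univ < ⊤ := by
  have hint : Integrable (fun z : ℂ => ((1 : ℝ) + ‖z‖ ^ 2) ^ (-(6 : ℝ) / 2)) :=
    integrable_rpow_neg_one_add_norm_sq (by simp; norm_num)
  have hint2 := hint.const_mul (4 * κ ^ 2 / (κ ^ 2 / 4) ^ 3)
  unfold area
  rw [Measure.restrict_univ]
  refine lt_of_le_of_lt (lintegral_mono fun z => ?_) hint2.lintegral_lt_top
  apply ENNReal.ofReal_le_ofReal
  rw [exp_two_u hκ]
  have hn : ‖z‖ ^ 2 = z.re ^ 2 + z.im ^ 2 := by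
    rw [Complex.sq_norm, Complex.normSq_apply]; ring
  rw [hn]
  set x := z.re
  set y := z.im
  set t := x ^ 2 + y ^ 2 with ht
  have ht0 : 0 ≤ t := by positivity
  have hk1 : κ ^ 2 ≤ 1 := by nlinarith
  have hk0 : 0 < κ ^ 2 := by positivity
  have hP : (κ ^ 2 / 4 * (1 + t)) ^ 2 ≤ P κ x y := by
    have h1 : (t - 1) ^ 2 + κ ^ 4 ≤ P κ x y := by
      unfold P
      have : (x ^ 2 - y ^ 2 - 1) ^ 2 + 4 * x ^ 2 * y ^ 2 + κ ^ 4 =
        (t - 1) ^ 2 + κ ^ 4 + 4 * y ^ 2 := by rw [ht]; ring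
      rw [this]
      nlinarith [sq_nonneg y]
    refine le_trans ?_ h1
    have e : (κ ^ 2 / 4 * (1 + t)) ^ 2 = κ ^ 4 * ((1 + t) ^ 2 / 16) := by ring
    rw [e]
    have hk4 : 0 ≤ κ ^ 4 := by positivity
    have hk41 : κ ^ 4 ≤ 1 := by nlinarith
    rcases le_or_gt t 3 with h3 | h3
    · have : (1 + t) ^ 2 / 16 ≤ 1 := by nlinarith
      nlinarith [sq_nonneg (t - 1)]
    · have : (1 + t) ^ 2 / 16 ≤ (t - 1) ^ 2 := by nlinarith
      nlinarith [sq_nonneg (1 + t)]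
  have hq : κ ^ 2 / 4 * (1 + t) ≤ √(P κ x y) := Real.le_sqrt_of_sq_le hP
  have hG : κ ^ 2 / 4 * (1 + t) ≤ √(P κ x y) + κ ^ 2 * t := by
    have : 0 ≤ κ ^ 2 * t := by positivity
    linarith
  have e : 4 * κ ^ 2 / (κ ^ 2 / 4) ^ 3 * (1 + t) ^ (-(6 : ℝ) / 2) =
      4 * κ ^ 2 / ((κ ^ 2 / 4 * (1 + t)) * (κ ^ 2 / 4 * (1 + t)) ^ 2) := by
    have h1t : 0 < 1 + t := by positivity
    have : (-(6 : ℝ) / 2) = -((3 : ℕ) : ℝ) := by norm_num
    rw [this, Real.rpow_neg h1t.le, Real.rpow_natCast]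
    field_simp
  rw [e]
  gcongr

/-- The right half plane is a smooth domain. -/
lemma isSmoothDomain_halfPlane : IsSmoothDomain {z : ℂ | 0 < z.re} where
  isOpen := isOpen_lt continuous_const Complex.continuous_re
  isConnected := by
    refine ⟨⟨1, by simp⟩, ?_⟩
    exact (convex_halfSpace_re_gt 0).isPreconnected
  smooth := by
    intro p _
    refine ⟨fun z => -z.re, ?_, ?_, ?_⟩
    · exact (reCLM.contDiff).neg
    · have : HasFDerivAt (fun z : ℂ => -z.re) (-reCLM) p := reCLM.hasFDerivAt.neg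
      rw [this.fderiv]
      intro h
      have := congrArg (fun L : ℂ →L[ℝ] ℝ => L 1) h
      simp at this
    · refine Eventually.of_forall fun z => ?_
      simp

/-- **The conformal Levy-Gromov inequality fails for Liouville supersolutions**, even up to an
arbitrary multiplicative constant: for every `δ > 0` there are a smooth supersolution `u` of the
Liouville equation with finite area and a smooth domain `Ω` (a half plane) with
`L(Ω)² < δ A(Ω) A(ℝ² ∖ Ω)`. -/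
theorem result (δ : ℝ) (hδ : 0 < δ) :
    ∃ v : ℂ → ℝ, ContDiff ℝ ∞ v ∧ (∀ z, (Δ v) z + Real.exp (2 * v z) ≤ 0) ∧
      area v Set.univ < ⊤ ∧
      ∃ Ω : Set ℂ, IsSmoothDomain Ω ∧
        boundaryLength v Ω ^ 2 < ENNReal.ofReal δ * (area v Ω * area v Ωᶜ) := by
  obtain ⟨κ, hκ, hκ1, hκδ⟩ : ∃ κ : ℝ, 0 < κ ∧ κ ≤ 1 / 10 ∧ (75 / 2 * κ) ^ 2 < δ := by
    refine ⟨min (1 / 10) (√δ / 75), by positivity, min_le_left _ _, ?_⟩
    have h1 : 75 / 2 * min (1 / 10) (√δ / 75) ≤ √δ / 2 := by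
      have := min_le_right (1 / 10 : ℝ) (√δ / 75)
      linarith
    have h0 : 0 ≤ 75 / 2 * min (1 / 10) (√δ / 75) := by positivity
    calc (75 / 2 * min (1 / 10) (√δ / 75)) ^ 2 ≤ (√δ / 2) ^ 2 := by gcongr
      _ = δ / 4 := by rw [div_pow, Real.sq_sqrt hδ.le]; norm_num
      _ < δ := by linarith
  refine ⟨u κ, contDiff_u hκ, laplacian_u hκ, area_univ_lt_top hκ hκ1,
    {z : ℂ | 0 < z.re}, isSmoothDomain_halfPlane, ?_⟩
  have hk2 : κ ^ 2 < 1 := by nlinarith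
  have hre : ∀ (a : ℝ) (z : ℂ), z ∈ Metric.ball (a : ℂ) (κ ^ 2) → |z.re - a| < 1 := by
    intro a z hz
    rw [Metric.mem_ball, dist_eq_norm] at hz
    have := Complex.abs_re_le_norm (z - a)
    simp only [sub_re, ofReal_re] at this
    linarith
  have hA1 : ENNReal.ofReal (4 * Real.pi / 75) ≤ area (u κ) {z : ℂ | 0 < z.re} := by
    apply area_ge hκ hκ1 (a := 1) (Or.inl rfl)
    intro z hz
    have := abs_lt.mp (hre 1 z hz)
    simp only [Set.mem_ofPred_eq]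
    linarith [this.1]
  have hA2 : ENNReal.ofReal (4 * Real.pi / 75) ≤ area (u κ) {z : ℂ | 0 < z.re}ᶜ := by
    apply area_ge hκ hκ1 (a := -1) (Or.inr rfl)
    intro z hz
    have := abs_lt.mp (hre (-1) z hz)
    simp only [Set.mem_compl_iff, Set.mem_ofPred_eq, not_lt]
    linarith [this.2]
  calc boundaryLength (u κ) {z : ℂ | 0 < z.re} ^ 2
      ≤ ENNReal.ofReal (2 * κ * Real.pi) ^ 2 := by
        gcongr
        exact boundaryLength_le hκ
    _ = ENNReal.ofReal ((2 * κ * Real.pi) ^ 2) := by rw [ENNReal.ofReal_pow (by positivity)]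
    _ < ENNReal.ofReal (δ * (4 * Real.pi / 75 * (4 * Real.pi / 75))) := by
        apply (ENNReal.ofReal_lt_ofReal_iff (by positivity)).mpr
        have : (2 * κ * Real.pi) ^ 2 = (75 / 2 * κ) ^ 2 * (4 * Real.pi / 75 * (4 * Real.pi / 75)) := by
          ring
        rw [this]
        gcongr
    _ = ENNReal.ofReal δ * (ENNReal.ofReal (4 * Real.pi / 75) *
          ENNReal.ofReal (4 * Real.pi / 75)) := by
        rw [ENNReal.ofReal_mul hδ.le, ENNReal.ofReal_mul (by positivity)]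
    _ ≤ ENNReal.ofReal δ * (area (u κ) {z : ℂ | 0 < z.re} *
          area (u κ) {z : ℂ | 0 < z.re}ᶜ) := by
        gcongr

end Pool.Agent.Results.MP_c070b6_an.NoConformalLevyGromov
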